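import Pool.Agent.P.MP_aa0c4d_al.Necessity
import Pool.Agent.P.MP_aa0c4d_al.Sufficiency

/-! Classification of the strongly reversible elements of `Spin(n)`. -/

namespace Pool.Agent.Results.MP_aa0c4d_al.Classification

open Pool.Agent.P.MP_aa0c4d_al

/-- `z` is the number of `j` with `μ_j = sin θ_j = 0`, and `q` is the number of `j` with
`λ_j = cos θ_j = 0`. -/
theorem result (n : ℕ) (θ : ℕ → ℝ) (z q : ℕ)
    (hz : z = {j | j < n / 2 ∧ Real.sin (θ j) = 0}.ncard)
    (hq : q = {j | j < n / 2 ∧ Real.cos (θ j) = 0}.ncard) :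
    StronglyReversible n (normalForm n θ) ↔
      (n % 8 = 0 ∨ n % 8 = 1 ∨ n % 8 = 7) ∨
      ((n % 8 = 2 ∨ n % 8 = 6) ∧ 1 ≤ z) ∨
      ((n % 8 = 3 ∨ n % 8 = 5) ∧ (1 ≤ z ∨ 2 ≤ q)) ∨
      (n % 8 = 4 ∧ (2 ≤ z ∨ 2 ≤ q)) := by
  classical
  rw [normalForm_eq]
  set α : ℕ → ℝ := fun j => Real.cos (θ j) with hα
  set β : ℕ → ℝ := fun j => Real.sin (θ j) with hβ
  have h1 : ∀ j, α j ^ 2 + β j ^ 2 = 1 := fun j => Real.cos_sq_add_sin_sq (θ j)
  have hz' : z = ((Finset.range (n / 2)).filter fun j => β j = 0).card := by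
    rw [hz, ← Set.ncard_coe_finset]
    congr 1
    ext j
    simp [hβ]
  have hq' : q = ((Finset.range (n / 2)).filter fun j => α j = 0).card := by
    rw [hq, ← Set.ncard_coe_finset]
    congr 1
    ext j
    simp [hα]
  clear_value α β
  constructor
  · intro hsr
    by_contra hc
    by_cases h2 : n % 4 = 2
    · have hz0 : z = 0 := by omega
      refine necessity_two α β h1 h2 (fun j hj hb => ?_) hsr
      rw [hz', Finset.card_eq_zero] at hz0
      have : j ∈ (Finset.range (n / 2)).filter fun j => β j = 0 := by simp [hj, hb]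
      rw [hz0] at this
      simp at this
    · have h : q ≤ 1 := by omega
      obtain ⟨k, hk, hk'⟩ := necessity_main α β h1 (hq' ▸ h) hsr
      rw [← hz', abs_lt] at hk'
      have b1 : 2 * k < n + (2 * z + 2 + n % 2) := by
        have : (2 * k : ℝ) < n + (2 * z + 2 + (n % 2 : ℕ)) := by linarith [hk'.1]
        exact_mod_cast this
      have b2 : n < 2 * k + (2 * z + 2 + n % 2) := by
        have : (n : ℝ) < 2 * k + (2 * z + 2 + (n % 2 : ℕ)) := by linarith [hk'.2]
        exact_mod_cast this
      omega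
  · have one : 1 ≤ z → ∃ j < n / 2, β j = 0 := by
      intro h
      obtain ⟨j, hj⟩ := Finset.card_pos.1 (hz' ▸ h)
      exact ⟨j, by simpa using hj⟩
    have two : 2 ≤ z ∨ 2 ≤ q → ∃ i < n / 2, ∃ j < n / 2, i ≠ j ∧ α i * β i = 0 ∧ α j * β j = 0 ∧
        (α i ^ 2 - β i ^ 2) * (α j ^ 2 - β j ^ 2) = 1 := by
      rintro (h | h)
      · obtain ⟨i, hi, j, hj, hij⟩ := Finset.one_lt_card.1 (hz' ▸ h)
        simp only [Finset.mem_filter, Finset.mem_range] at hi hj
        have a := h1 i
        have b := h1 j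
        rw [hi.2] at a
        rw [hj.2] at b
        refine ⟨i, hi.1, j, hj.1, hij, by simp [hi.2], by simp [hj.2], ?_⟩
        rw [hi.2, hj.2]
        linear_combination α j ^ 2 * a + b
      · obtain ⟨i, hi, j, hj, hij⟩ := Finset.one_lt_card.1 (hq' ▸ h)
        simp only [Finset.mem_filter, Finset.mem_range] at hi hj
        have a := h1 i
        have b := h1 j
        rw [hi.2] at a
        rw [hj.2] at b
        refine ⟨i, hi.1, j, hj.1, hij, by simp [hi.2], by simp [hj.2], ?_⟩
        rw [hi.2, hj.2]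
        linear_combination β j ^ 2 * a + b
    have base : ∀ F : Finset ℕ, (∀ i ∈ F, i = 2 * (n / 2) ∧ i < n) → (n / 2 + F.card) % 4 = 0 →
        StronglyReversible n (E n α β (n / 2)) := fun F hF h =>
      sufficiency α β h1 ∅ ∅ F (by simp) (by simp) (by simp) hF (by simpa using h) (by simp)
        (by simp)
    have rem1 : 1 ≤ z → (n / 2) % 4 = 1 → StronglyReversible n (E n α β (n / 2)) := by
      intro h h4
      obtain ⟨j, hj, hb⟩ := one h
      have a := h1 j
      refine sufficiency α β h1 {j} ∅ ∅ (by simpa using hj) (by simp) (by simp) (by simp)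
        (by simp; omega) (by simp [hb]) ?_
      simpa [hb] using a
    have add1 : ∀ F : Finset ℕ, (∀ i ∈ F, i = 2 * (n / 2) ∧ i < n) → 1 ≤ z →
        (n / 2 + 1 + F.card) % 4 = 0 → StronglyReversible n (E n α β (n / 2)) := by
      intro F hF h h4
      obtain ⟨j, hj, hb⟩ := one h
      have a := h1 j
      refine sufficiency α β h1 ∅ {j} F (by simp) (by simpa using hj) (by simp) hF
        (by simpa using h4) (by simp [hb]) ?_
      simpa [hb] using a
    have rem2 : ∀ F : Finset ℕ, (∀ i ∈ F, i = 2 * (n / 2) ∧ i < n) → 2 ≤ z ∨ 2 ≤ q →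
        (n / 2 + 2 + F.card) % 4 = 0 → StronglyReversible n (E n α β (n / 2)) := by
      intro F hF h h4
      obtain ⟨i, hi, j, hj, hij, a, b, c⟩ := two h
      refine sufficiency α β h1 {i, j} ∅ F ?_ (by simp) (by simp) hF ?_ ?_ ?_
      · intro x hx
        rcases Finset.mem_insert.1 hx with rfl | hx
        · simpa using hi
        · rw [Finset.mem_singleton.1 hx]
          simpa using hj
      · rw [Finset.card_pair hij, Finset.card_empty]
        omega
      · intro x hx
        rw [Finset.union_empty] at hx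
        rcases Finset.mem_insert.1 hx with rfl | hx
        · exact a
        · rw [Finset.mem_singleton.1 hx]
          exact b
      · rw [Finset.union_empty, Finset.prod_pair hij]
        exact c
    have hE : ∀ i ∈ (∅ : Finset ℕ), i = 2 * (n / 2) ∧ i < n := by simp
    have hO : n % 2 = 1 → ∀ i ∈ ({2 * (n / 2)} : Finset ℕ), i = 2 * (n / 2) ∧ i < n := by
      intro h i hi
      rw [Finset.mem_singleton.1 hi]
      omega
    rintro ((h | h | h) | ⟨h | h, h'⟩ | ⟨h | h, h' | h'⟩ | ⟨h, h'⟩)
    · exact base ∅ hE (by simp; omega)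
    · exact base ∅ hE (by simp; omega)
    · exact base _ (hO (by omega)) (by simp; omega)
    · exact rem1 h' (by omega)
    · exact add1 ∅ hE h' (by simp; omega)
    · exact rem1 h' (by omega)
    · exact rem2 _ (hO (by omega)) (Or.inr h') (by simp; omega)
    · exact add1 _ (hO (by omega)) h' (by simp; omega)
    · exact rem2 ∅ hE (Or.inr h') (by simp; omega)
    · exact rem2 ∅ hE h' (by simp; omega)

end Pool.Agent.Results.MP_aa0c4d_al.Classification
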